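import Pool.Agent.H2.Sch.Main

/-!
Approximation, Gelfand and Kolmogorov numbers of the identity `S_p^N → S_q^N` for `1 < p ≤ 2 ≤ q < ∞`
(real scalars): `a_n` is comparable to `max (c_n, d_n)`, uniformly in `N` and `1 ≤ n ≤ N ^ 2`, and the
sharp order of `a_n` for `N ^ 2 / 2 ≤ n ≤ N ^ 2`.
-/

open SchEmb

namespace Pool.Agent.Results.MP_aaecd4_an.MiddleQuadrant

theorem result (p q : ℝ) (hp1 : 1 < p) (hp2 : p ≤ 2) (hq : 2 ≤ q) :
    ∃ C : ℝ, 1 ≤ C ∧ ∀ N n : ℕ, 1 ≤ n → n ≤ N ^ 2 →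
      let T : Matrix (Fin N) (Fin N) ℝ →ₗ[ℝ] Matrix (Fin N) (Fin N) ℝ := LinearMap.id
      let a := approxNum (schatten p) (schatten q) T n
      let c := gelfandNum (schatten p) (schatten q) T n
      let d := kolmogorovNum (schatten p) (schatten q) T n
      let ω : ℝ := √((N : ℝ) ^ 2 - n + 1) / N *
        ((N : ℝ) ^ (1 / 2 - 1 / p) + (N : ℝ) ^ (1 / q - 1 / 2)) + (N : ℝ) ^ (1 / q - 1 / p)
      (max c d ≤ a ∧ a ≤ ENNReal.ofReal C * max c d) ∧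
      (N ^ 2 ≤ 2 * n → ENNReal.ofReal (ω / C) ≤ a ∧ a ≤ ENNReal.ofReal (C * ω)) := by
  obtain ⟨C, hC, h⟩ := main hp1 hp2 hq
  refine ⟨C, hC, ?_⟩
  intro N n hn hnN
  have hN : 1 ≤ N := by
    rcases Nat.eq_zero_or_pos N with h | h
    · subst h
      simp at hnN
      omega
    · exact h
  have hω : ord N (N ^ 2 - n + 1) p q = √((N : ℝ) ^ 2 - n + 1) / N *
        ((N : ℝ) ^ (1 / 2 - 1 / p) + (N : ℝ) ^ (1 / q - 1 / 2)) + (N : ℝ) ^ (1 / q - 1 / p) := by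
    rw [ord_eq hN]
    have : ((N ^ 2 - n + 1 : ℕ) : ℝ) = (N : ℝ) ^ 2 - n + 1 := by
      push_cast [Nat.cast_sub hnN]
      ring
    rw [this]
  have h2 := h N n hn hnN
  rw [hω] at h2
  exact h2

end Pool.Agent.Results.MP_aaecd4_an.MiddleQuadrant
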